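import Pool.Agent.Q284.PS.Stm2

/-!
# Project PS (helper284): coefficients of the inverse local factor (job PS-LOC1)
-/

set_option autoImplicit false

open Finset Polynomial ComplexConjugate

namespace Pool.Agent.Q277.PS

open Pool.Agent.Q284.PS

theorem loc_coeff_zero (d : ℕ) (a : ℂ) (hd : 4 ≤ d) :
    PowerSeries.constantCoeff (loc d a) = 1 := by
  unfold loc
  rw [← PowerSeries.coeff_zero_eq_constantCoeff_apply]
  simp only [map_add, map_sub, PowerSeries.coeff_C_mul, PowerSeries.coeff_X_pow,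
    PowerSeries.coeff_one]
  rw [PowerSeries.coeff_zero_X]
  rw [if_neg (by omega : ¬ 0 = d - 1), if_neg (by omega : ¬ 0 = d)]
  simp

theorem hh_zero (d : ℕ) (a : ℂ) (hd : 4 ≤ d) : hh d a 0 = 1 := by
  unfold hh
  rw [PowerSeries.coeff_zero_eq_constantCoeff_apply, PowerSeries.constantCoeff_inv,
    loc_coeff_zero d a hd, inv_one]

/-- the recursion -/
theorem hh_rec (d : ℕ) (a : ℂ) (hd : 4 ≤ d) (k : ℕ) (hk : 1 ≤ k) :
    hh d a k = a * hh d a (k - 1) +
      (if d - 1 ≤ k then (-1) ^ d * conj a * hh d a (k - (d - 1)) else 0) -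
      (if d ≤ k then (-1) ^ d * hh d a (k - d) else 0) := by
  have h1 : loc d a * (loc d a)⁻¹ = 1 :=
    PowerSeries.mul_inv_cancel _ (by rw [loc_coeff_zero d a hd]; exact one_ne_zero)
  obtain ⟨H, hH⟩ : ∃ H, H = (loc d a)⁻¹ := ⟨_, rfl⟩
  rw [← hH] at h1
  have h2 := congrArg (PowerSeries.coeff k) h1
  unfold loc at h2
  rw [PowerSeries.coeff_one, if_neg (by omega : ¬ k = 0)] at h2
  have e1 : (1 - PowerSeries.C a * PowerSeries.X - PowerSeries.C ((-1) ^ d * conj a) *
      PowerSeries.X ^ (d - 1) + PowerSeries.C ((-1) ^ d) * PowerSeries.X ^ d) * H =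
      H - PowerSeries.C a * (PowerSeries.X ^ 1 * H) - PowerSeries.C ((-1) ^ d * conj a) *
      (PowerSeries.X ^ (d - 1) * H) + PowerSeries.C ((-1) ^ d) * (PowerSeries.X ^ d * H) := by
    ring
  rw [e1, map_add, map_sub, map_sub, PowerSeries.coeff_C_mul, PowerSeries.coeff_C_mul,
    PowerSeries.coeff_C_mul, PowerSeries.coeff_X_pow_mul', PowerSeries.coeff_X_pow_mul',
    PowerSeries.coeff_X_pow_mul', if_pos hk] at h2
  unfold hh
  rw [← hH]
  split_ifs at h2 ⊢ <;> linear_combination h2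

theorem hh_pow (d : ℕ) (a : ℂ) (hd : 4 ≤ d) (k : ℕ) (hk : k ≤ d - 2) : hh d a k = a ^ k := by
  induction k with
  | zero => rw [hh_zero d a hd, pow_zero]
  | succ k ih =>
    rw [hh_rec d a hd (k + 1) (by omega), if_neg (by omega), if_neg (by omega),
      Nat.add_sub_cancel, ih (by omega), pow_succ]
    ring

theorem t_LOC1 : S_LOC1 := by
  intro d a hd ha
  have hnorm : ‖((-1 : ℂ)) ^ d‖ = 1 := by rw [norm_pow, norm_neg, norm_one, one_pow]
  refine ⟨hh_zero d a hd, fun k _ hk => hh_pow d a hd k hk, ?_, ?_⟩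
  · rw [hh_rec d a hd (d - 1) (by omega), if_pos le_rfl, if_neg (by omega), Nat.sub_self,
      hh_zero d a hd, sub_zero, mul_one, show d - 1 - 1 = d - 2 by omega,
      hh_pow d a hd (d - 2) le_rfl]
    have h1 : ‖a * a ^ (d - 2)‖ ≤ ‖a‖ := by
      rw [norm_mul, norm_pow]
      exact mul_le_of_le_one_right (norm_nonneg _)
        (pow_le_one₀ (norm_nonneg _) (by linarith))
    have h2 : ‖(-1 : ℂ) ^ d * conj a‖ = ‖a‖ := by
      rw [norm_mul, hnorm, one_mul, RCLike.norm_conj]
    calc ‖a * a ^ (d - 2) + (-1) ^ d * conj a‖ ≤ ‖a * a ^ (d - 2)‖ + ‖(-1 : ℂ) ^ d * conj a‖ :=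
          norm_add_le _ _
      _ ≤ 2 * ‖a‖ := by rw [h2]; linarith
  · have hd0 : (0 : ℝ) < d := by
      have : 0 < d := by omega
      exact_mod_cast this
    have hd4 : (4 : ℝ) ≤ d := by exact_mod_cast hd
    intro k
    induction k using Nat.strong_induction_on with
    | _ k ih =>
    rcases Nat.eq_zero_or_pos k with h0 | h0
    · subst h0
      rw [hh_zero d a hd]
      simp
    rw [hh_rec d a hd k h0]
    have hp : (0 : ℝ) < 3 ^ ((k : ℝ) / d) := Real.rpow_pos_of_pos (by norm_num) _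
    -- first term
    have t1 : ‖a * hh d a (k - 1)‖ ≤ 1 / 4 * 3 ^ ((k : ℝ) / d) := by
      rw [norm_mul]
      have h1 := ih (k - 1) (by omega)
      have h2 : (3 : ℝ) ^ (((k - 1 : ℕ) : ℝ) / d) ≤ 3 ^ ((k : ℝ) / d) := by
        refine Real.rpow_le_rpow_of_exponent_le (by norm_num) ?_
        refine div_le_div_of_nonneg_right ?_ hd0.le
        exact_mod_cast Nat.sub_le _ _
      exact mul_le_mul ha (h1.trans h2) (norm_nonneg _) (by norm_num)
    have t2 : ‖(if d - 1 ≤ k then (-1) ^ d * conj a * hh d a (k - (d - 1)) else 0)‖ ≤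
        1 / 4 * 3 ^ ((k : ℝ) / d) := by
      split_ifs with hc
      · rw [norm_mul, norm_mul, hnorm, one_mul, RCLike.norm_conj]
        have h1 := ih (k - (d - 1)) (by omega)
        have h2 : (3 : ℝ) ^ (((k - (d - 1) : ℕ) : ℝ) / d) ≤ 3 ^ ((k : ℝ) / d) := by
          refine Real.rpow_le_rpow_of_exponent_le (by norm_num) ?_
          refine div_le_div_of_nonneg_right ?_ hd0.le
          exact_mod_cast Nat.sub_le _ _
        exact mul_le_mul ha (h1.trans h2) (norm_nonneg _) (by norm_num)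
      · rw [norm_zero]
        positivity
    have t3 : ‖(if d ≤ k then (-1) ^ d * hh d a (k - d) else 0)‖ ≤
        1 / 3 * 3 ^ ((k : ℝ) / d) := by
      split_ifs with hc
      · rw [norm_mul, hnorm, one_mul]
        have h1 := ih (k - d) (by omega)
        refine h1.trans (le_of_eq ?_)
        have h2 : (((k - d : ℕ) : ℝ) / d) = (k : ℝ) / d - 1 := by
          rw [Nat.cast_sub hc, sub_div, div_self hd0.ne']
        rw [h2, Real.rpow_sub (by norm_num), Real.rpow_one]
        ring
      · rw [norm_zero]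
        positivity
    refine (norm_sub_le _ _).trans ?_
    refine (add_le_add (norm_add_le _ _) le_rfl).trans ?_
    linarith

end Pool.Agent.Q277.PS
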