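import Pool.Agent.Q284.PS.Stm2
import Pool.Agent.Q277.PS.LOC1

/-!
# Project PS (helper284): factorisations, jobs PS-REC and PS-DEC
-/

set_option autoImplicit false

open Finset Polynomial ComplexConjugate
open Pool.Agent.H341R2.Sharp (Mon mem_Mon)

namespace Pool.Agent.Q277.PS

open Pool.Agent.Q284.PS UniqueFactorizationMonoid

section gen

variable {F : Type} [Field F]

open Classical in
theorem nf_mem {f P : F[X]} (hP : P ∈ normalizedFactors f) : P.Monic ∧ Irreducible P := by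
  have h1 := irreducible_of_normalized_factor P hP
  have h2 := normalize_normalized_factor P hP
  refine ⟨?_, h1⟩
  rw [← h2]
  exact monic_normalize h1.ne_zero

open Classical in
theorem pow_dvd_iff_count {f P : F[X]} (hf : f ≠ 0) (hP : P.Monic) (hI : Irreducible P) (k : ℕ) :
    P ^ k ∣ f ↔ k ≤ (normalizedFactors f).count P := by
  have h := emultiplicity_eq_count_normalizedFactors hI hf
  rw [hP.normalize_eq_self] at h
  rw [pow_dvd_iff_le_emultiplicity, h]
  exact Nat.cast_le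

open Classical in
theorem mem_nf_iff {f P : F[X]} (hf : f ≠ 0) : P ∈ normalizedFactors f ↔
    P.Monic ∧ Irreducible P ∧ P ∣ f := by
  constructor
  · intro h
    exact ⟨(nf_mem h).1, (nf_mem h).2, dvd_of_mem_normalizedFactors h⟩
  · rintro ⟨h1, h2, h3⟩
    rw [← Multiset.one_le_count_iff_mem, ← pow_dvd_iff_count hf h1 h2, pow_one]
    exact h3

open Classical in
theorem nf_prod {f : F[X]} (hf : f.Monic) : (normalizedFactors f).prod = f := by
  have h := prod_normalizedFactors_eq (a := f) hf.ne_zero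
  rw [h, hf.normalize_eq_self]

open Classical in
theorem deg_sum {f : F[X]} (hf : f.Monic) : f.natDegree =
    ∑ P ∈ (normalizedFactors f).toFinset, (normalizedFactors f).count P * P.natDegree := by
  conv_lhs => rw [← nf_prod hf]
  rw [natDegree_multiset_prod _ (zero_notMem_normalizedFactors f),
    Finset.sum_multiset_map_count]
  rfl

theorem mirr_eq {P P' : F[X]} (h1 : P.Monic) (h2 : P'.Monic) (h3 : Irreducible P)
    (h4 : Irreducible P') (h : P ∣ P') : P = P' :=
  eq_of_monic_of_associated h1 h2 (h3.associated_of_dvd h4 h)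

end gen

section mul

variable {F : Type} [Field F]

theorem hh_one (d : ℕ) (a : ℂ) (hd : 4 ≤ d) : hh d a 1 = a := by
  rw [hh_pow d a hd 1 (by omega), pow_one]

open Classical in
theorem aF_irr (d : ℕ) (hd : 4 ≤ d) (a : F[X] → ℂ) (P : F[X]) (hP : P.Monic)
    (hI : Irreducible P) : aF d a P = a P := by
  unfold aF
  rw [normalizedFactors_irreducible hI, hP.normalize_eq_self, Multiset.toFinset_singleton,
    Finset.prod_singleton, Multiset.count_singleton_self, hh_one d _ hd]

open Classical in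
theorem aF_mul (d : ℕ) (a : F[X] → ℂ) (f g : F[X]) (hf : f ≠ 0) (hg : g ≠ 0)
    (hfg : IsCoprime f g) : aF d a (f * g) = aF d a f * aF d a g := by
  unfold aF
  rw [normalizedFactors_mul hf hg, Multiset.toFinset_add]
  have hdis : ∀ P, P ∈ normalizedFactors f → P ∉ normalizedFactors g := by
    intro P h1 h2
    have h3 := dvd_of_mem_normalizedFactors h1
    have h4 := dvd_of_mem_normalizedFactors h2
    exact (nf_mem h1).2.not_isUnit (hfg.isUnit_of_dvd' h3 h4)
  rw [Finset.prod_union]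
  · congr 1
    · refine Finset.prod_congr rfl fun P hP => ?_
      rw [Multiset.mem_toFinset] at hP
      rw [Multiset.count_add, Multiset.count_eq_zero_of_notMem (hdis P hP), add_zero]
    · refine Finset.prod_congr rfl fun P hP => ?_
      rw [Multiset.mem_toFinset] at hP
      have : P ∉ normalizedFactors f := fun h => hdis P h hP
      rw [Multiset.count_add, Multiset.count_eq_zero_of_notMem this, zero_add]
  · rw [Finset.disjoint_left]
    intro P h1 h2
    rw [Multiset.mem_toFinset] at h1 h2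
    exact hdis P h1 h2

end mul

section dec

variable {F : Type} [Field F] [Fintype F]

theorem mem_PI {k : ℕ} {P : F[X]} : P ∈ PI F k ↔ P.Monic ∧ P.natDegree = k ∧ Irreducible P := by
  classical
  unfold PI
  rw [Finset.mem_filter, mem_Mon, and_assoc]

open Classical in
theorem t_DEC : S_DEC := by
  intro F _ _ d a χ hd hχ n hn
  have hsplit : ee d a χ n = ∑ f ∈ (Mon F n).filter
      (fun f => ¬ ∀ P : F[X], P.Monic → Irreducible P → P ∣ f → 2 * P.natDegree ≤ n),
      aF d a f * χ f + ∑ f ∈ Sm F n, aF d a f * χ f := by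
    unfold ee Sm
    rw [← Finset.sum_filter_add_sum_filter_not (Mon F n)
      (fun f => ∀ P : F[X], P.Monic → Irreducible P → P ∣ f → 2 * P.natDegree ≤ n), add_comm]
  rw [hsplit]
  congr 1
  symm
  have hR : ∑ i ∈ (range n).filter (fun i => 2 * i < n), ee d a χ i * ss a χ (n - i) =
      ∑ x ∈ ((range n).filter (fun i => 2 * i < n)).sigma
        (fun i => (Mon F i) ×ˢ (PI F (n - i))),
        (aF d a x.2.1 * χ x.2.1) * (a x.2.2 * χ x.2.2) := by
    rw [Finset.sum_sigma]
    refine Finset.sum_congr rfl fun i _ => ?_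
    unfold ee ss
    rw [Finset.sum_mul_sum, Finset.sum_product]
  rw [hR]
  refine Finset.sum_bij (fun x _ => x.2.1 * x.2.2) ?_ ?_ ?_ ?_
  · rintro ⟨i, g, P⟩ hx
    simp only [Finset.mem_sigma, Finset.mem_filter, Finset.mem_range, Finset.mem_product,
      mem_Mon, mem_PI] at hx ⊢
    obtain ⟨⟨h1, h2⟩, ⟨h3, h4⟩, h5, h6, h7⟩ := hx
    refine ⟨⟨h3.mul h5, ?_⟩, ?_⟩
    · rw [h3.natDegree_mul h5, h4, h6]
      omega
    · intro h
      have := h P h5 h7 (dvd_mul_left _ _)
      omega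
  · rintro ⟨i, g, P⟩ hx ⟨i', g', P'⟩ hx' heq
    simp only [Finset.mem_sigma, Finset.mem_filter, Finset.mem_range, Finset.mem_product,
      mem_Mon, mem_PI] at hx hx' heq
    obtain ⟨⟨h1, h2⟩, ⟨h3, h4⟩, h5, h6, h7⟩ := hx
    obtain ⟨⟨k1, k2⟩, ⟨k3, k4⟩, k5, k6, k7⟩ := hx'
    have hdv : P ∣ g' * P' := by rw [← heq]; exact dvd_mul_left _ _
    have hPP : P = P' := by
      rcases h7.prime.dvd_or_dvd hdv with h | h
      · exfalso
        have := natDegree_le_of_dvd h k3.ne_zero
        have h8 : P.natDegree = n - i := h6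
        rw [k4] at this
        omega
      · exact mirr_eq h5 k5 h7 k7 h
    subst hPP
    have hgg : g = g' := mul_right_cancel₀ h5.ne_zero heq
    subst hgg
    have : i = i' := by rw [← h4, k4]
    subst this
    rfl
  · intro f hf
    simp only [Finset.mem_filter, mem_Mon] at hf
    obtain ⟨⟨hm, hdeg⟩, hnot⟩ := hf
    push Not at hnot
    obtain ⟨P, hP, hI, ⟨g, hg⟩, h2⟩ := hnot
    have hgm : g.Monic := by
      have : (P * g).Monic := by rw [← hg]; exact hm
      exact hP.of_mul_monic_left this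
    have hd2 : P.natDegree + g.natDegree = n := by
      rw [← hdeg, hg, hP.natDegree_mul hgm]
    have hd3 : 0 < P.natDegree := hI.natDegree_pos
    refine ⟨⟨g.natDegree, g, P⟩, ?_, ?_⟩
    · simp only [Finset.mem_sigma, Finset.mem_filter, Finset.mem_range, Finset.mem_product,
        mem_Mon, mem_PI]
      exact ⟨⟨by omega, by omega⟩, ⟨hgm, trivial⟩, hP, by omega, hI⟩
    · show g * P = f
      rw [hg, mul_comm]
  · rintro ⟨i, g, P⟩ hx
    simp only [Finset.mem_sigma, Finset.mem_filter, Finset.mem_range, Finset.mem_product,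
      mem_Mon, mem_PI] at hx ⊢
    obtain ⟨⟨h1, h2⟩, ⟨h3, h4⟩, h5, h6, h7⟩ := hx
    have hcop : IsCoprime g P := by
      refine ((h7.coprime_iff_not_dvd).2 fun h => ?_).symm
      have := natDegree_le_of_dvd h h3.ne_zero
      rw [h4] at this
      omega
    rw [aF_mul d a g P h3.ne_zero h5.ne_zero hcop, aF_irr d hd a P h5 h7, hχ.2 g P h3 h5]
    ring

theorem mem_PD {k : ℕ} {P : F[X]} : P ∈ PD F k ↔
    P.Monic ∧ P.natDegree ≤ k ∧ Irreducible P ∧ P.natDegree ∣ k := by
  classical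
  unfold PD
  rw [Finset.mem_filter, Finset.mem_biUnion]
  simp only [Finset.mem_range, mem_Mon]
  constructor
  · rintro ⟨⟨i, hi, h1, h2⟩, h3, h4⟩
    exact ⟨h1, by omega, h3, h4⟩
  · rintro ⟨h1, h2, h3, h4⟩
    exact ⟨⟨P.natDegree, by omega, h1, rfl⟩, h3, h4⟩

open Classical in
/-- the prime power part -/
theorem part_facts {f P : F[X]} (hf : f.Monic) (hP : P ∈ normalizedFactors f) {c : ℕ}
    (hc : c = (normalizedFactors f).count P) :
    P.Monic ∧ Irreducible P ∧ 1 ≤ c ∧ f = P ^ c * (f /ₘ P ^ c) ∧ (f /ₘ P ^ c).Monic ∧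
      IsCoprime (P ^ c) (f /ₘ P ^ c) ∧ f.natDegree = c * P.natDegree + (f /ₘ P ^ c).natDegree := by
  obtain ⟨hm, hI⟩ := nf_mem hP
  have h1 : 1 ≤ c := by rw [hc]; exact Multiset.one_le_count_iff_mem.2 hP
  have hdv : P ^ c ∣ f := (pow_dvd_iff_count hf.ne_zero hm hI c).2 hc.le
  have hpm : (P ^ c).Monic := hm.pow c
  have heq : f = P ^ c * (f /ₘ P ^ c) := by
    have h2 := modByMonic_add_div f (P ^ c)
    rw [(modByMonic_eq_zero_iff_dvd hpm).2 hdv, zero_add] at h2
    exact h2.symm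
  have hqm : (f /ₘ P ^ c).Monic := by
    refine hpm.of_mul_monic_left ?_
    rw [← heq]
    exact hf
  refine ⟨hm, hI, h1, heq, hqm, ?_, ?_⟩
  · refine IsCoprime.pow_left ((hI.coprime_iff_not_dvd).2 fun h => ?_)
    have h3 : P ^ (c + 1) ∣ f := by
      rw [heq, pow_succ]
      exact mul_dvd_mul_left _ h
    have h4 := (pow_dvd_iff_count hf.ne_zero hm hI (c + 1)).1 h3
    omega
  · conv_lhs => rw [heq]
    rw [hpm.natDegree_mul hqm, hm.natDegree_pow]

open Classical in
theorem t_REC : S_REC := by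
  intro F _ _ g hg n hn
  obtain ⟨S, hS⟩ : ∃ S : Finset (Σ _ : F[X], F[X]), S = (Mon F n).sigma
    (fun f => (normalizedFactors f).toFinset) := ⟨_, rfl⟩
  obtain ⟨T, hT⟩ : ∃ T : Finset (Σ _ : ℕ, F[X] × F[X]), T = (Icc 1 n).sigma
    (fun j => PD F j ×ˢ Mon F (n - j)) := ⟨_, rfl⟩
  obtain ⟨W, hW⟩ : ∃ W : (Σ _ : ℕ, F[X] × F[X]) → ℝ, W = fun y =>
    (y.1 : ℝ) * g (y.2.1 ^ (y.1 / y.2.1.natDegree)) * g y.2.2 := ⟨_, rfl⟩
  obtain ⟨φ, hφ⟩ : ∃ φ : (Σ _ : F[X], F[X]) → (Σ _ : ℕ, F[X] × F[X]), φ = fun x =>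
    ⟨(normalizedFactors x.1).count x.2 * x.2.natDegree, (x.2, x.1 /ₘ x.2 ^
      ((normalizedFactors x.1).count x.2))⟩ := ⟨_, rfl⟩
  -- left side
  have hL : (n : ℝ) * ∑ f ∈ Mon F n, g f = ∑ x ∈ S, W (φ x) := by
    rw [hS, Finset.sum_sigma, Finset.mul_sum]
    refine Finset.sum_congr rfl fun f hf => ?_
    rw [mem_Mon] at hf
    have h1 : (n : ℝ) = ∑ P ∈ (normalizedFactors f).toFinset,
        (((normalizedFactors f).count P * P.natDegree : ℕ) : ℝ) := by
      rw [← Nat.cast_sum, ← deg_sum hf.1, hf.2]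
    rw [h1, Finset.sum_mul]
    refine Finset.sum_congr rfl fun P hP => ?_
    rw [Multiset.mem_toFinset] at hP
    obtain ⟨a1, a2, a3, a4, a5, a6, -⟩ := part_facts hf.1 hP rfl
    rw [hW, hφ]
    simp only
    rw [Nat.mul_div_cancel _ a2.natDegree_pos, mul_assoc, ← hg.mul _ _ (a1.pow _) a5 a6, ← a4]
  have hR : ∑ j ∈ Icc 1 n, (j : ℝ) * (∑ P ∈ PD F j, g (P ^ (j / P.natDegree))) *
      ∑ f ∈ Mon F (n - j), g f = ∑ y ∈ T, W y := by
    rw [hT, Finset.sum_sigma]
    refine Finset.sum_congr rfl fun j _ => ?_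
    rw [hW]
    simp only
    rw [mul_assoc, Finset.sum_mul_sum, Finset.sum_product, Finset.mul_sum]
    refine Finset.sum_congr rfl fun P _ => ?_
    rw [Finset.mul_sum]
    refine Finset.sum_congr rfl fun f _ => ?_
    ring
  rw [hL, hR]
  have hinj : Set.InjOn φ (S : Set (Σ _ : F[X], F[X])) := by
    rintro ⟨f, P⟩ hx ⟨f', P'⟩ hx' heq
    rw [hS, Finset.mem_coe, Finset.mem_sigma] at hx hx'
    simp only [mem_Mon, Multiset.mem_toFinset] at hx hx'
    rw [hφ] at heq
    simp only [Sigma.mk.injEq, heq_eq_eq, Prod.mk.injEq] at heq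
    obtain ⟨e1, e2, e3⟩ := heq
    subst e2
    obtain ⟨a1, a2, a3, a4, a5, a6, -⟩ := part_facts hx.1.1 hx.2 rfl
    obtain ⟨b1, b2, b3, b4, b5, b6, -⟩ := part_facts hx'.1.1 hx'.2 rfl
    have hc : (normalizedFactors f).count P = (normalizedFactors f').count P :=
      Nat.eq_of_mul_eq_mul_right a2.natDegree_pos e1
    have hff : f = f' := by
      rw [a4, b4, e3, hc]
    subst hff
    rfl
  rw [← Finset.sum_image (f := W) (fun x hx y hy h => hinj hx hy h)]
  refine Finset.sum_le_sum_of_subset_of_nonneg ?_ ?_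
  · intro y hy
    rw [Finset.mem_image] at hy
    obtain ⟨⟨f, P⟩, hx, rfl⟩ := hy
    rw [hS, Finset.mem_sigma] at hx
    simp only [mem_Mon, Multiset.mem_toFinset] at hx
    obtain ⟨a1, a2, a3, a4, a5, a6, a7⟩ := part_facts hx.1.1 hx.2 rfl
    rw [hT, hφ, Finset.mem_sigma]
    simp only [Finset.mem_product, mem_Mon, mem_PD, Finset.mem_Icc]
    rw [hx.1.2] at a7
    have a8 := a2.natDegree_pos
    obtain ⟨c, hc⟩ : ∃ c, c = (normalizedFactors f).count P := ⟨_, rfl⟩
    rw [← hc] at a3 a7 a5 ⊢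
    have a9 : 1 ≤ c * P.natDegree := Nat.mul_pos a3 a8
    have a10 : P.natDegree ≤ c * P.natDegree := Nat.le_mul_of_pos_left _ a3
    exact ⟨⟨a9, by omega⟩, ⟨a1, a10, a2, Dvd.intro_left _ rfl⟩, a5, by omega⟩
  · intro y hy _
    rw [hT, Finset.mem_sigma] at hy
    simp only [Finset.mem_product, mem_Mon, mem_PD, Finset.mem_Icc] at hy
    rw [hW]
    exact mul_nonneg (mul_nonneg (Nat.cast_nonneg _) (hg.nonneg _ (hy.2.1.1.pow _)))
      (hg.nonneg _ hy.2.2.1)

end dec

end Pool.Agent.Q277.PS
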