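import Pool.Agent.Q284.PS.Stm2

/-!
# Project PS (helper284): convolution of the weights (job PS-WC)
-/

set_option autoImplicit false

open Finset Polynomial ComplexConjugate

namespace Pool.Agent.Q277.PS

open Pool.Agent.Q284.PS

theorem HH_add (d i j : ℕ) (hd : 1 ≤ d) : HH d i + HH d j ≤ HH d (i + j) + 1 := by
  unfold HH
  have h1 := Nat.div_mul_le_self (2 * i + d - 1) d
  have h2 := Nat.div_mul_le_self (2 * j + d - 1) d
  obtain ⟨a, ha⟩ : ∃ a, a = (2 * i + d - 1) / d := ⟨_, rfl⟩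
  obtain ⟨b, hb⟩ : ∃ b, b = (2 * j + d - 1) / d := ⟨_, rfl⟩
  rw [← ha] at h1 ⊢
  rw [← hb] at h2 ⊢
  rcases Nat.eq_zero_or_pos (a + b) with h0 | h0
  · rw [h0]
    exact Nat.zero_le _
  have h3 : a + b - 1 ≤ (2 * (i + j) + d - 1) / d := by
    rw [Nat.le_div_iff_mul_le (by omega)]
    have h4 : (a + b - 1) * d = a * d + b * d - d := by
      rw [Nat.sub_mul, Nat.add_mul, one_mul]
    rw [h4]
    omega
  omega

theorem sum_inv_sq (M : ℕ) (hM : 1 ≤ M) : ∑ i ∈ Icc 1 M, 1 / (i : ℝ) ^ 2 ≤ 2 - 1 / (M : ℝ) := by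
  induction M, hM using Nat.le_induction with
  | base => norm_num
  | succ M hM ih =>
    rw [Finset.sum_Icc_succ_top (by omega)]
    have h1 : (1 : ℝ) ≤ M := by exact_mod_cast hM
    have h2 : 1 / (((M + 1 : ℕ) : ℝ)) ^ 2 ≤ 1 / (M : ℝ) - 1 / (((M + 1 : ℕ) : ℝ)) := by
      push_cast
      rw [div_sub_div _ _ (by positivity) (by positivity), div_le_div_iff₀ (by positivity)
        (by positivity)]
      nlinarith
    linarith

theorem sum_inv_sq' (M : ℕ) : ∑ i ∈ Icc 1 M, 1 / (i : ℝ) ^ 2 ≤ 2 := by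
  rcases Nat.eq_zero_or_pos M with h | h
  · subst h
    simp
  · have h1 := sum_inv_sq M h
    have h2 : 0 ≤ 1 / (M : ℝ) := by positivity
    linarith

theorem rpow_add_le (x y p : ℝ) (hx : 0 ≤ x) (hy : 0 ≤ y) (hp : 1 ≤ p) :
    (x + y) ^ p ≤ 2 ^ (p - 1) * (x ^ p + y ^ p) := by
  have h := NNReal.rpow_add_le_mul_rpow_add_rpow ⟨x, hx⟩ ⟨y, hy⟩ hp
  exact_mod_cast h

theorem conv_one (p : ℝ) (hp : 2 ≤ p) (x y : ℝ) (hx : 1 ≤ x) (hy : 1 ≤ y) :
    1 / (x ^ p * y ^ p) ≤ 2 ^ (p - 1) * (1 / x ^ 2 + 1 / y ^ 2) / (x + y) ^ p := by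
  have hx0 : 0 < x := by linarith
  have hy0 : 0 < y := by linarith
  have hn : 0 < (x + y) ^ p := Real.rpow_pos_of_pos (by linarith) _
  rw [le_div_iff₀ hn, one_div_mul_eq_div]
  have h1 : (x + y) ^ p / (x ^ p * y ^ p) = (1 / x + 1 / y) ^ p := by
    rw [← Real.mul_rpow hx0.le hy0.le, ← Real.div_rpow (by linarith) (by positivity)]
    congr 1
    field_simp
    ring
  rw [h1]
  refine (rpow_add_le (1 / x) (1 / y) p (by positivity) (by positivity) (by linarith)).trans ?_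
  have h2 : ∀ z : ℝ, 1 ≤ z → (1 / z) ^ p ≤ 1 / z ^ 2 := by
    intro z hz
    have hz0 : 0 < z := by linarith
    have h3 : (1 / z) ^ p ≤ (1 / z) ^ (2 : ℝ) :=
      Real.rpow_le_rpow_of_exponent_ge (by positivity) (by rw [div_le_one hz0]; exact hz) hp
    refine h3.trans (le_of_eq ?_)
    rw [Real.rpow_two, div_pow, one_pow]
  have h4 := h2 x hx
  have h5 := h2 y hy
  have h6 : (0 : ℝ) ≤ 2 ^ (p - 1) := Real.rpow_nonneg (by norm_num) _
  exact mul_le_mul_of_nonneg_left (add_le_add h4 h5) h6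

theorem conv_sum (p : ℝ) (hp : 2 ≤ p) (n : ℕ) :
    ∑ i ∈ Icc 1 (n - 1), 1 / ((i : ℝ) ^ p * ((n - i : ℕ) : ℝ) ^ p) ≤
      2 ^ (p - 1) * 4 / (n : ℝ) ^ p := by
  have h6 : (0 : ℝ) ≤ 2 ^ (p - 1) := Real.rpow_nonneg (by norm_num) _
  have h1 : ∀ i ∈ Icc 1 (n - 1), 1 / ((i : ℝ) ^ p * ((n - i : ℕ) : ℝ) ^ p) ≤
      2 ^ (p - 1) / (n : ℝ) ^ p * (1 / (i : ℝ) ^ 2 + 1 / ((n - i : ℕ) : ℝ) ^ 2) := by
    intro i hi
    rw [Finset.mem_Icc] at hi
    have hx : (1 : ℝ) ≤ i := by exact_mod_cast hi.1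
    have hy : (1 : ℝ) ≤ ((n - i : ℕ) : ℝ) := by
      have : 1 ≤ n - i := by omega
      exact_mod_cast this
    have hxy : (i : ℝ) + ((n - i : ℕ) : ℝ) = n := by
      rw [Nat.cast_sub (by omega)]
      ring
    have h := conv_one p hp (i : ℝ) ((n - i : ℕ) : ℝ) hx hy
    rw [hxy] at h
    refine h.trans (le_of_eq ?_)
    ring
  refine (Finset.sum_le_sum h1).trans ?_
  rw [← Finset.mul_sum, Finset.sum_add_distrib]
  have h2 : ∑ i ∈ Icc 1 (n - 1), 1 / ((n - i : ℕ) : ℝ) ^ 2 = ∑ i ∈ Icc 1 (n - 1), 1 / (i : ℝ) ^ 2 := by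
    refine Finset.sum_nbij' (fun i => n - i) (fun i => n - i) ?_ ?_ ?_ ?_ ?_
    · intro i hi
      rw [Finset.mem_Icc] at hi ⊢
      omega
    · intro i hi
      rw [Finset.mem_Icc] at hi ⊢
      omega
    · intro i hi
      rw [Finset.mem_Icc] at hi
      show n - (n - i) = i
      omega
    · intro i hi
      rw [Finset.mem_Icc] at hi
      show n - (n - i) = i
      omega
    · intro i _
      rfl
  rw [h2]
  have h3 := sum_inv_sq' (n - 1)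
  have h4 : (0 : ℝ) ≤ 2 ^ (p - 1) / (n : ℝ) ^ p := div_nonneg h6 (Real.rpow_nonneg (Nat.cast_nonneg n) _)
  calc 2 ^ (p - 1) / (n : ℝ) ^ p * (∑ i ∈ Icc 1 (n - 1), 1 / (i : ℝ) ^ 2 +
        ∑ i ∈ Icc 1 (n - 1), 1 / (i : ℝ) ^ 2) ≤ 2 ^ (p - 1) / (n : ℝ) ^ p * 4 :=
        mul_le_mul_of_nonneg_left (by linarith) h4
    _ = 2 ^ (p - 1) * 4 / (n : ℝ) ^ p := by ring

theorem t_WC : S_WC := by
  intro q d n hq hd
  have hq0 : 0 < q := by linarith
  have hpow : ∀ (B : ℝ) (i : ℕ), 1 ≤ B → i ∈ Icc 1 (n - 1) →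
      B ^ (HH d i) * B ^ (HH d (n - i)) ≤ B * B ^ (HH d n) := by
    intro B i hB hi
    rw [Finset.mem_Icc] at hi
    have h1 := HH_add d i (n - i) hd
    rw [show i + (n - i) = n by omega] at h1
    rw [← pow_add, ← pow_succ']
    exact pow_le_pow_right₀ hB h1
  constructor
  · have h1 : ∀ i ∈ Icc 1 (n - 1), ww q d i * ww q d (n - i) ≤
        (100 * 100 ^ (HH d n) * q ^ ((5 : ℝ) * n / 8)) *
          (1 / ((i : ℝ) ^ ((5 : ℝ) / 2) * ((n - i : ℕ) : ℝ) ^ ((5 : ℝ) / 2))) := by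
      intro i hi
      have h2 := hpow 100 i (by norm_num) hi
      rw [Finset.mem_Icc] at hi
      have e1 : ww q d i * ww q d (n - i) = (100 ^ (HH d i) * 100 ^ (HH d (n - i))) *
          q ^ ((5 : ℝ) * n / 8) *
          (1 / ((i : ℝ) ^ ((5 : ℝ) / 2) * ((n - i : ℕ) : ℝ) ^ ((5 : ℝ) / 2))) := by
        unfold ww
        have e2 : q ^ ((5 : ℝ) * n / 8) = q ^ ((5 : ℝ) * i / 8) * q ^ ((5 : ℝ) * (n - i : ℕ) / 8) := by
          rw [← Real.rpow_add hq0]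
          congr 1
          rw [Nat.cast_sub (by omega)]
          ring
        rw [e2]
        ring
      rw [e1]
      have h3 : (0 : ℝ) ≤ q ^ ((5 : ℝ) * n / 8) := Real.rpow_nonneg hq0.le _
      have h4 : (0 : ℝ) ≤ 1 / ((i : ℝ) ^ ((5 : ℝ) / 2) * ((n - i : ℕ) : ℝ) ^ ((5 : ℝ) / 2)) := by
        positivity
      exact mul_le_mul_of_nonneg_right (mul_le_mul_of_nonneg_right h2 h3) h4
    refine (Finset.sum_le_sum h1).trans ?_
    rw [← Finset.mul_sum]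
    have h5 := conv_sum (5 / 2) (by norm_num) n
    have h6 : (2 : ℝ) ^ ((5 : ℝ) / 2 - 1) ≤ 3 := by
      have e : ((5 : ℝ) / 2 - 1) = 3 * (1 / 2 : ℝ) := by norm_num
      rw [e, Real.rpow_mul (by norm_num)]
      have h7 : (2 : ℝ) ^ (3 : ℝ) = 8 := by
        rw [show (3 : ℝ) = ((3 : ℕ) : ℝ) by norm_num, Real.rpow_natCast]
        norm_num
      rw [h7, ← Real.sqrt_eq_rpow]
      rw [show (3 : ℝ) = Real.sqrt 9 by
        rw [show (9 : ℝ) = 3 ^ 2 by norm_num, Real.sqrt_sq (by norm_num)]]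
      exact Real.sqrt_le_sqrt (by norm_num)
    have h8 : (0 : ℝ) ≤ 100 * 100 ^ (HH d n) * q ^ ((5 : ℝ) * n / 8) := by positivity
    have h9 : (0 : ℝ) ≤ (n : ℝ) ^ ((5 : ℝ) / 2) := Real.rpow_nonneg (Nat.cast_nonneg n) _
    have h10 : (2 : ℝ) ^ ((5 : ℝ) / 2 - 1) * 4 / (n : ℝ) ^ ((5 : ℝ) / 2) ≤
        12 / (n : ℝ) ^ ((5 : ℝ) / 2) := div_le_div_of_nonneg_right (by linarith) h9
    calc (100 * 100 ^ (HH d n) * q ^ ((5 : ℝ) * n / 8)) * ∑ i ∈ Icc 1 (n - 1),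
          (1 / ((i : ℝ) ^ ((5 : ℝ) / 2) * ((n - i : ℕ) : ℝ) ^ ((5 : ℝ) / 2)))
        ≤ (100 * 100 ^ (HH d n) * q ^ ((5 : ℝ) * n / 8)) * (12 / (n : ℝ) ^ ((5 : ℝ) / 2)) :=
          mul_le_mul_of_nonneg_left (h5.trans h10) h8
      _ = 1200 * ww q d n := by
          unfold ww
          ring
      _ ≤ 1600 * ww q d n := by
          refine mul_le_mul_of_nonneg_right (by norm_num) ?_
          unfold ww
          positivity
  · have h1 : ∀ i ∈ Icc 1 (n - 1), om q d i * om q d (n - i) ≤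
        (10000 * 10000 ^ (HH d n) * q ^ ((n : ℝ) / 4)) *
          (1 / ((i : ℝ) ^ (4 : ℝ) * ((n - i : ℕ) : ℝ) ^ (4 : ℝ))) := by
      intro i hi
      have h2 := hpow 10000 i (by norm_num) hi
      rw [Finset.mem_Icc] at hi
      have e4 : ∀ x : ℝ, x ^ (4 : ℝ) = x ^ 4 := fun x => by
        rw [show (4 : ℝ) = ((4 : ℕ) : ℝ) by norm_num, Real.rpow_natCast]
      have e1 : om q d i * om q d (n - i) = (10000 ^ (HH d i) * 10000 ^ (HH d (n - i))) *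
          q ^ ((n : ℝ) / 4) *
          (1 / ((i : ℝ) ^ (4 : ℝ) * ((n - i : ℕ) : ℝ) ^ (4 : ℝ))) := by
        unfold om
        have e2 : q ^ ((n : ℝ) / 4) = q ^ ((i : ℝ) / 4) * q ^ (((n - i : ℕ) : ℝ) / 4) := by
          rw [← Real.rpow_add hq0]
          congr 1
          rw [Nat.cast_sub (by omega)]
          ring
        rw [e2, e4, e4]
        ring
      rw [e1]
      have h3 : (0 : ℝ) ≤ q ^ ((n : ℝ) / 4) := Real.rpow_nonneg hq0.le _
      have h4 : (0 : ℝ) ≤ 1 / ((i : ℝ) ^ (4 : ℝ) * ((n - i : ℕ) : ℝ) ^ (4 : ℝ)) := by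
        positivity
      exact mul_le_mul_of_nonneg_right (mul_le_mul_of_nonneg_right h2 h3) h4
    refine (Finset.sum_le_sum h1).trans ?_
    rw [← Finset.mul_sum]
    have h5 := conv_sum 4 (by norm_num) n
    have h6 : (2 : ℝ) ^ ((4 : ℝ) - 1) = 8 := by
      rw [show ((4 : ℝ) - 1) = ((3 : ℕ) : ℝ) by norm_num, Real.rpow_natCast]
      norm_num
    rw [h6] at h5
    have h8 : (0 : ℝ) ≤ 10000 * 10000 ^ (HH d n) * q ^ ((n : ℝ) / 4) := by positivity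
    calc (10000 * 10000 ^ (HH d n) * q ^ ((n : ℝ) / 4)) * ∑ i ∈ Icc 1 (n - 1),
          (1 / ((i : ℝ) ^ (4 : ℝ) * ((n - i : ℕ) : ℝ) ^ (4 : ℝ)))
        ≤ (10000 * 10000 ^ (HH d n) * q ^ ((n : ℝ) / 4)) * (8 * 4 / (n : ℝ) ^ (4 : ℝ)) :=
          mul_le_mul_of_nonneg_left h5 h8
      _ = 320000 * om q d n := by
          unfold om
          rw [show (n : ℝ) ^ (4 : ℝ) = (n : ℝ) ^ 4 by
            rw [show (4 : ℝ) = ((4 : ℕ) : ℝ) by norm_num, Real.rpow_natCast]]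
          ring
      _ ≤ 350000 * om q d n := by
          refine mul_le_mul_of_nonneg_right (by norm_num) ?_
          unfold om
          positivity

end Pool.Agent.Q277.PS
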