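import Pool.Agent.Q284.PS.Stm2

/-!
# Project PS (helper284): uniqueness of the primitive character (job PS-UNI)
-/

set_option autoImplicit false

open Finset Polynomial ComplexConjugate

namespace Pool.Agent.Q277.PS

open Pool.Agent.Q284.PS

/-- the monic greatest common divisor -/
theorem exists_gcd {F : Type} [Field F] (Q Q' : F[X]) (hQ : Q.Monic) :
    ∃ G : F[X], G.Monic ∧ G ∣ Q ∧ G ∣ Q' ∧ ∀ D : F[X], D ∣ Q → D ∣ Q' → D ∣ G := by
  classical
  obtain ⟨g, hg⟩ : ∃ g, g = EuclideanDomain.gcd Q Q' := ⟨_, rfl⟩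
  have h1 : g ∣ Q := by rw [hg]; exact EuclideanDomain.gcd_dvd_left _ _
  have h2 : g ∣ Q' := by rw [hg]; exact EuclideanDomain.gcd_dvd_right _ _
  have hg0 : g ≠ 0 := by
    rintro rfl
    exact hQ.ne_zero (zero_dvd_iff.1 h1)
  have hlc : g.leadingCoeff ≠ 0 := leadingCoeff_ne_zero.2 hg0
  have hassoc : g * C g.leadingCoeff⁻¹ ∣ g := by
    refine ⟨C g.leadingCoeff, ?_⟩
    rw [mul_assoc, ← C_mul, inv_mul_cancel₀ hlc, C_1, mul_one]
  refine ⟨g * C g.leadingCoeff⁻¹, monic_mul_leadingCoeff_inv hg0, hassoc.trans h1,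
    hassoc.trans h2, fun D h3 h4 => ?_⟩
  have h5 : D ∣ g := by rw [hg]; exact EuclideanDomain.dvd_gcd h3 h4
  exact h5.trans (dvd_mul_right _ _)

theorem cop_congr {F : Type} [Field F] {Q f h : F[X]} (hf : IsCoprime f Q) (hd : Q ∣ h - f) :
    IsCoprime h Q := by
  obtain ⟨c, hc⟩ := hd
  have : h = f + c * Q := by rw [mul_comm c Q, ← hc]; ring
  rw [this]
  exact (IsCoprime.add_mul_right_left_iff).2 hf

theorem hay_ne {F : Type} [Field F] {Q : F[X]} {l : ℕ} {χ : F[X] → ℂ} (h : Hay Q l χ) {f : F[X]}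
    (hf : f.Monic) (hc : IsCoprime f Q) : χ f ≠ 0 := by
  have := h.norm f hf hc
  intro h0
  rw [h0, norm_zero] at this
  exact zero_ne_one this

/-- the claim in the proof of UNI -/
theorem uni_claim (hCRT : S_CRT) {F : Type} [Field F] {Q Q' G : F[X]} {l l' : ℕ}
    {χ χ' : F[X] → ℂ} (h1 : Hay Q l χ) (h2 : Hay Q' l' χ')
    (hG : ∀ D : F[X], D ∣ Q → D ∣ Q' → D ∣ G)
    (hag : ∀ h : F[X], h.Monic → χ h ≠ 0 → χ' h ≠ 0 → χ h = χ' h)
    (f g : F[X]) (hf : f.Monic) (hg : g.Monic) (hfc : IsCoprime f (Q * Q'))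
    (hgc : IsCoprime g (Q * Q')) (hd : G ∣ f - g)
    (hr : X ^ (min l l' + 1) ∣ f.reverse - g.reverse) : χ f = χ g := by
  obtain ⟨hf1, hf2⟩ := IsCoprime.mul_right_iff.1 hfc
  obtain ⟨hg1, hg2⟩ := IsCoprime.mul_right_iff.1 hgc
  have hcom : ∀ D : F[X], D ∣ Q → D ∣ Q' → D ∣ f - g := fun D a b => (hG D a b).trans hd
  have hXle : ∀ {a b : ℕ} {p : F[X]}, a ≤ b → X ^ b ∣ p → X ^ a ∣ p := fun hab h =>
    (pow_dvd_pow X hab).trans h
  have hgg : χ g = χ' g := hag g hg (hay_ne h1 hg hg1) (hay_ne h2 hg hg2)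
  rcases le_total l l' with hl | hl
  · rw [min_eq_left hl] at hr
    obtain ⟨h, hh, hQ, hQ', hrev⟩ := hCRT F Q Q' f g g l' h1.monic h2.monic hg hcom
    have hc1 : IsCoprime h Q := cop_congr hf1 hQ
    have hc2 : IsCoprime h Q' := cop_congr hg2 hQ'
    have e1 : χ h = χ f := by
      refine h1.per h f hh hf hQ ?_
      have : h.reverse - f.reverse = (h.reverse - g.reverse) - (f.reverse - g.reverse) := by ring
      rw [this]
      exact dvd_sub (hXle (by omega) hrev) hr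
    have e2 : χ' h = χ' g := h2.per h g hh hg hQ' hrev
    have e3 : χ h = χ' h := hag h hh (hay_ne h1 hh hc1) (hay_ne h2 hh hc2)
    rw [← e1, e3, e2, hgg]
  · rw [min_eq_right hl] at hr
    obtain ⟨h, hh, hQ, hQ', hrev⟩ := hCRT F Q Q' f g f l h1.monic h2.monic hf hcom
    have hc1 : IsCoprime h Q := cop_congr hf1 hQ
    have hc2 : IsCoprime h Q' := cop_congr hg2 hQ'
    have e1 : χ h = χ f := h1.per h f hh hf hQ hrev
    have e2 : χ' h = χ' g := by
      refine h2.per h g hh hg hQ' ?_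
      have : h.reverse - g.reverse = (h.reverse - f.reverse) + (f.reverse - g.reverse) := by ring
      rw [this]
      exact dvd_add (hXle (by omega) hrev) hr
    have e3 : χ h = χ' h := hag h hh (hay_ne h1 hh hc1) (hay_ne h2 hh hc2)
    rw [← e1, e3, e2, hgg]

theorem t_UNI (hCRT : S_CRT) (hETA : S_ETA) : S_UNI := by
  intro F _ _ Q Q' l l' χ χ' hp hp' hag
  obtain ⟨h1, hprim⟩ := hp
  obtain ⟨h2, hprim'⟩ := hp'
  obtain ⟨G, hGm, hGQ, hGQ', hGd⟩ := exists_gcd Q Q' h1.monic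
  -- first character
  obtain ⟨η, hη1, hη2⟩ := hETA F Q Q' G l (min l l') χ h1 h2.monic hGm hGQ (min_le_left _ _)
    (fun f g hf hg hfc hgc hd hr => uni_claim hCRT h1 h2 hGd hag f g hf hg hfc hgc hd hr)
  obtain ⟨a1, a2⟩ := hprim G (min l l') η hη1 hGQ (min_le_left _ _) hη2
  -- second character
  obtain ⟨η', hη1', hη2'⟩ := hETA F Q' Q G l' (min l l') χ' h2 h1.monic hGm hGQ' (min_le_right _ _)
    (fun f g hf hg hfc hgc hd hr => by
      rw [min_comm] at hr
      exact uni_claim hCRT h2 h1 (fun D a b => hGd D b a)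
        (fun h hm x y => (hag h hm y x).symm) f g hf hg hfc hgc hd hr)
  obtain ⟨b1, b2⟩ := hprim' G (min l l') η' hη1' hGQ' (min_le_right _ _) hη2'
  have hQ : Q = Q' := a1.symm.trans b1
  have hl : l = l' := a2.symm.trans b2
  refine ⟨hQ, hl, ?_⟩
  funext f
  by_cases hf : f.Monic
  · by_cases hc : IsCoprime f Q
    · exact hag f hf (hay_ne h1 hf hc) (hay_ne h2 hf (by rw [← hQ]; exact hc))
    · rw [h1.zero f hf hc, h2.zero f hf (by rw [← hQ]; exact hc)]
  · rw [h1.off f hf, h2.off f hf]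

end Pool.Agent.Q277.PS
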